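import Pool.Agent.Work.MP_caf222_co.Main

open ClassPConj in
/-- A ternary counterexample to the class P conjecture: a primitive morphism `φ` with a
palindromic fixed point `u` such that the only morphism of class P' which has a fixed point
with the language of `u` is the identity. -/
theorem Pool.Agent.Results.MP_caf222_co.Counterexample.result :
    ∃ (φ : Fin 3 → List (Fin 3)) (u : ℕ → Fin 3),
      Primitive φ ∧ IsFixedPoint φ u ∧ Palindromic u ∧
      ∀ ψ : Fin 3 → List (Fin 3), ClassP' ψ →
        (∃ v : ℕ → Fin 3, IsFixedPoint ψ v ∧ Lang v = Lang u) → ∀ a, ψ a = [a] :=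
  ⟨phi, u, phi_primitive, phi_fixes, u_palindromic,
    fun _ hψ ⟨_, hf, hL⟩ => only_identity hψ hf hL⟩
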